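import Mathlib
import Pool.Agent.Q120.LC.PartC

set_option autoImplicit false

/-!
# Locating chromatic numbers of `K_m □ C_n` and `K_m □ P_n`
-/

namespace Pool.Agent.Results.MP_6ba634_co.ExactValues

open SimpleGraph

/-- the distance of a vertex `v` to a set `S` of vertices -/
noncomputable def distTo {V : Type*} (G : SimpleGraph V) (v : V) (S : Set V) : ℕ :=
  sInf (G.dist v '' S)

/-- `c` is a locating `k`-colouring: it is proper, all `k` colours are used, and vertices with the
same colour code are equal -/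
def IsLocating {V : Type*} (G : SimpleGraph V) (k : ℕ) (c : V → Fin k) : Prop :=
  (∀ u v, G.Adj u v → c u ≠ c v) ∧ Function.Surjective c ∧
    ∀ u v, (∀ i, distTo G u (c ⁻¹' {i}) = distTo G v (c ⁻¹' {i})) → u = v

/-- the locating chromatic number -/
noncomputable def chiL {V : Type*} (G : SimpleGraph V) : ℕ :=
  sInf {k | ∃ c : V → Fin k, IsLocating G k c}

open Pool.Agent.Q120.LC in
theorem chi_of {m n : ℕ} (hm : 9 ≤ m) (hn : 9 ≤ n) (H : SimpleGraph (Fin n)) (hH : H.Connected)
    (hdeg : ∀ j : Fin n, ∀ T : Finset (Fin n), (∀ x ∈ T, H.Adj j x) → T.card ≤ 2)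
    (hle : H ≤ cycleGraph n)
    (hB : ∃ c : Fin m × Fin n → Fin (m + 2), Pool.Agent.Q120.LC.IsLocating (KP m H) (m + 2) c) :
    chiL ((⊤ : SimpleGraph (Fin m)) □ H) = if n ≤ m + 1 then m + 1 else m + 2 := by
  have : NeZero m := ⟨by omega⟩
  have hne : (⟨0, by omega⟩ : Fin n) ≠ ⟨1, by omega⟩ := by simp
  have hlow : ∀ k, (∃ c : Fin m × Fin n → Fin k, IsLocating ((⊤ : SimpleGraph (Fin m)) □ H) k c) →
      m + 1 ≤ k := by
    rintro k ⟨c, hc⟩
    exact lt_of_locating hH (c := c) hc hne
  split_ifs with h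
  · apply le_antisymm
    · obtain ⟨c, r, a, h1, h2, h3, h4, h5, h6⟩ := exists_A (m := m) (by omega) (by omega) h
      exact Nat.sInf_le ⟨colr c, locating_A hH c r a h1 h2 h3
        (fun j j' i hj => h4 j j' i (hle hj)) (fun j j' hj => h5 j j' (hle hj)) h6 hne⟩
    · apply le_csInf
      · exact ⟨m + 2, hB⟩
      · exact hlow
  · apply le_antisymm
    · exact Nat.sInf_le hB
    · apply le_csInf
      · exact ⟨m + 2, hB⟩
      · intro k hk
        have h1 := hlow k hk
        rcases Nat.lt_or_ge (m + 1) k with h2 | h2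
        · exact h2
        · exfalso
          have h3 : k = m + 1 := le_antisymm h2 h1
          subst h3
          obtain ⟨c, hc⟩ := hk
          have := card_le (c := c) (by omega) hH hdeg hc
          rw [Fintype.card_fin] at this
          exact h this

/-- For all `m, n ≥ 9` the locating chromatic numbers of `K_m □ C_n` and of `K_m □ P_n` are both
equal to `m + 1` if `n ≤ m + 1`, and both equal to `m + 2` if `n ≥ m + 2`. -/
theorem result (m n : ℕ) (hm : 9 ≤ m) (hn : 9 ≤ n) :
    chiL ((⊤ : SimpleGraph (Fin m)) □ cycleGraph n) = (if n ≤ m + 1 then m + 1 else m + 2) ∧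
      chiL ((⊤ : SimpleGraph (Fin m)) □ pathGraph n) = if n ≤ m + 1 then m + 1 else m + 2 :=
  ⟨chi_of hm hn _ (Pool.Agent.Q120.LC.cyc_conn (by omega))
      (Pool.Agent.Q120.LC.cyc_deg (by omega)) le_rfl
      (Pool.Agent.Q120.LC.exists_B_cycle (by omega) hn),
    chi_of hm hn _ (Pool.Agent.Q120.LC.path_conn (by omega))
      (Pool.Agent.Q120.LC.path_deg (by omega)) pathGraph_le_cycleGraph
      (Pool.Agent.Q120.LC.exists_B_path (by omega) (by omega))⟩

end Pool.Agent.Results.MP_6ba634_co.ExactValues
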